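import Pool.Agent.helper59.PT.Spec

set_option linter.all false
set_option autoImplicit false

/-!
# pt:WK, Wick's formula
-/

namespace Pool.Agent.helper65.PT

open MvPolynomial
open Pool.Agent.helper59.PT
open scoped BigOperators

/-- a derivation of a finite product -/
theorem der_prod {R A : Type*} [CommRing R] [CommRing A] [Algebra R A] (D : Derivation R A A)
    {T : Type*} [DecidableEq T] (s : Finset T) (f : T → A) :
    D (∏ t ∈ s, f t) = ∑ t ∈ s, (∏ u ∈ s.erase t, f u) * D (f t) := by
  classical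
  induction s using Finset.induction_on with
  | empty => simp
  | insert a s ha ih =>
    rw [Finset.prod_insert ha, Derivation.leibniz, ih, Finset.sum_insert ha, smul_eq_mul,
      smul_eq_mul, Finset.erase_insert ha, Finset.mul_sum, add_comm]
    congr 1
    refine Finset.sum_congr rfl fun t ht => ?_
    have hta : a ≠ t := fun h => ha (h ▸ ht)
    rw [Finset.erase_insert_of_ne hta, Finset.prod_insert (fun h => ha (Finset.mem_of_mem_erase h)),
      mul_assoc]

/-- the factors other than the factor `p` -/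
theorem prod_erase_swap {A : Type*} [CommMonoid A] {n : ℕ} (f : Fin (n + 1) → A)
    (p : Fin (n + 1)) :
    ∏ u ∈ Finset.univ.erase p, f u = ∏ i : Fin n, f (Equiv.swap 0 p i.succ) := by
  symm
  refine Finset.prod_bij (fun i _ => Equiv.swap 0 p i.succ) ?_ ?_ ?_ ?_
  · intro i _
    rw [Finset.mem_erase]
    refine ⟨?_, Finset.mem_univ _⟩
    intro h
    have h1 : Equiv.swap 0 p i.succ = Equiv.swap 0 p 0 := by rw [h, Equiv.swap_apply_left]
    exact Fin.succ_ne_zero i ((Equiv.swap 0 p).injective h1)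
  · intro i _ j _ h
    exact Fin.succ_injective _ ((Equiv.swap 0 p).injective h)
  · intro u hu
    rw [Finset.mem_erase] at hu
    have h0 : Equiv.swap 0 p u ≠ 0 := by
      intro h
      apply hu.1
      have h1 : Equiv.swap 0 p u = Equiv.swap 0 p p := by rw [h, Equiv.swap_apply_right]
      exact (Equiv.swap 0 p).injective h1
    obtain ⟨i, hi⟩ := Fin.exists_succ_eq.2 h0
    exact ⟨i, Finset.mem_univ _, by rw [hi, Equiv.swap_apply_self]⟩
  · intro i _
    rfl

/-- Laplace expansion along the first position -/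
theorem perm_expand {A : Type*} [CommSemiring A] {n : ℕ} (N : Fin (n + 1) → Fin (n + 1) → A) :
    ∑ σ : Equiv.Perm (Fin (n + 1)), ∏ i, N (σ i) i =
      ∑ p : Fin (n + 1), N p 0 * ∑ e : Equiv.Perm (Fin n),
        ∏ i : Fin n, N (Equiv.swap 0 p (e i).succ) i.succ := by
  rw [← Equiv.sum_comp (Equiv.Perm.decomposeFin.symm)]
  rw [Fintype.sum_prod_type]
  refine Finset.sum_congr rfl fun p _ => ?_
  rw [Finset.mul_sum]
  refine Finset.sum_congr rfl fun e _ => ?_
  rw [Fin.prod_univ_succ]
  simp [Equiv.Perm.decomposeFin_symm_apply_zero, Equiv.Perm.decomposeFin_symm_apply_succ]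

section

variable {V : Type} [Fintype V] [DecidableEq V]

/-- linear form -/
noncomputable def lf (a : V → ℂ) : MvPolynomial V ℂ := ∑ v, C (a v) * X v

/-- pairing -/
noncomputable def pr (K : V → V → ℂ) (a b : V → ℂ) : ℂ := ∑ v, ∑ w, a v * K v w * b w

/-- the contraction with `a` -/
noncomputable def DD (K : V → V → ℂ) (a : V → ℂ) :
    Derivation ℂ (MvPolynomial V ℂ) (MvPolynomial V ℂ) :=
  ∑ w, (∑ v, a v * K v w) • pderiv w

theorem DD_apply (K : V → V → ℂ) (a : V → ℂ) (Q : MvPolynomial V ℂ) :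
    DD K a Q = ∑ w, (∑ v, a v * K v w) • pderiv w Q := by
  unfold DD
  have h : ∀ s : Finset V, (∑ w ∈ s, (∑ v, a v * K v w) • (pderiv w :
      Derivation ℂ (MvPolynomial V ℂ) (MvPolynomial V ℂ))) Q =
      ∑ w ∈ s, (∑ v, a v * K v w) • pderiv w Q := by
    intro s
    induction s using Finset.induction_on with
    | empty => simp
    | insert b s hb ih =>
      rw [Finset.sum_insert hb, Finset.sum_insert hb, Derivation.add_apply, ih,
        Derivation.smul_apply]
  exact h Finset.univ

theorem DD_lf (K : V → V → ℂ) (a b : V → ℂ) : DD K a (lf b) = C (pr K a b) := by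
  rw [DD_apply]
  have h : ∀ w, pderiv w (lf b) = C (b w) := by
    intro w
    unfold lf
    rw [map_sum]
    rw [Finset.sum_eq_single w]
    · rw [Derivation.leibniz, pderiv_C, pderiv_X_self]
      simp
    · intro v _ hv
      rw [Derivation.leibniz, pderiv_C, pderiv_X_of_ne hv]
      simp
    · intro h
      exact absurd (Finset.mem_univ _) h
  simp only [h]
  unfold pr
  rw [Finset.sum_comm, map_sum]
  refine Finset.sum_congr rfl fun w _ => ?_
  rw [smul_eq_C_mul, ← C_mul, Finset.sum_mul]

theorem step_lf {K : V → V → ℂ} {L : MvPolynomial V ℂ →ₗ[ℂ] ℂ} (hL : IsG K L) (a : V → ℂ)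
    (Q : MvPolynomial V ℂ) : L (lf a * Q) = L (DD K a Q) := by
  rw [DD_apply]
  unfold lf
  rw [Finset.sum_mul, map_sum, map_sum]
  have h1 : ∀ v, L (C (a v) * X v * Q) = ∑ w, a v * K v w * L (pderiv w Q) := by
    intro v
    rw [mul_assoc, ← smul_eq_C_mul, map_smul, hL.step, smul_eq_mul, Finset.mul_sum]
    refine Finset.sum_congr rfl fun w _ => by ring
  simp only [h1, map_smul, smul_eq_mul, Finset.sum_mul]
  rw [Finset.sum_comm]

theorem wick_fin {K : V → V → ℂ} {L : MvPolynomial V ℂ →ₗ[ℂ] ℂ} (hL : IsG K L) :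
    ∀ (n : ℕ) (α β : Fin n → V → ℂ), (∀ s s', pr K (α s) (α s') = 0) →
    L ((∏ s, lf (α s)) * ∏ t, lf (β t)) =
      ∑ σ : Equiv.Perm (Fin n), ∏ i, pr K (α i) (β (σ i)) := by
  intro n
  induction n with
  | zero =>
    intro α β _
    simp [hL.one]
  | succ n ih =>
    intro α β hα
    rw [perm_expand (fun t s => pr K (α s) (β t))]
    rw [Fin.prod_univ_succ (fun s => lf (α s)), mul_assoc, step_lf hL, Derivation.leibniz,
      smul_eq_mul, smul_eq_mul]
    have h0 : DD K (α 0) (∏ i : Fin n, lf (α i.succ)) = 0 := by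
      rw [der_prod]
      apply Finset.sum_eq_zero
      intro i _
      rw [DD_lf, hα]
      simp
    rw [h0, mul_zero, add_zero, der_prod, Finset.mul_sum, map_sum]
    refine Finset.sum_congr rfl fun p _ => ?_
    rw [prod_erase_swap, DD_lf, ← ih (fun i => α i.succ) (fun i => β (Equiv.swap 0 p i.succ))
      (fun s s' => hα _ _)]
    rw [← mul_assoc, mul_comm _ (C (pr K (α 0) (β p))), ← smul_eq_C_mul, map_smul, smul_eq_mul]

end

theorem rowWK : Pool.Agent.helper59.PT.RowWK := by
  intro V _ _ K L hL S _ _ α β hα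
  classical
  let e : Fin (Fintype.card S) ≃ S := (Fintype.equivFin S).symm
  have h := wick_fin hL (Fintype.card S) (fun i => α (e i)) (fun i => β (e i))
    (fun s s' => hα _ _)
  have h1 : (∏ s, ∑ v, C (α s v) * X v : MvPolynomial V ℂ) = ∏ i, lf (α (e i)) :=
    (Equiv.prod_comp e (fun s => lf (α s))).symm
  have h2 : (∏ s, ∑ v, C (β s v) * X v : MvPolynomial V ℂ) = ∏ i, lf (β (e i)) :=
    (Equiv.prod_comp e (fun s => lf (β s))).symm
  rw [h1, h2, h]
  rw [← Matrix.permanent_transpose]
  rw [← Pool.Agent.helper16.LSZ.permanent_submatrix_equiv _ e]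
  unfold Matrix.permanent
  rfl

end Pool.Agent.helper65.PT
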